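import Pool.Agent.helper46.ESM.Spec
import Pool.Agent.helper80.EN.Asm

/-!
# es:NLP (MP_43ab4e_al): finitely generated groups in `InL` generated by right Engel elements are nilpotent
-/

set_option autoImplicit false

namespace Pool.Agent.helper46.ESM

open Subgroup Pool.Agent.helper80.EN

universe u

theorem NLP : NLP_stmt.{u} := by
  intro P _ hfg hre hL
  have h1 : closure {b : P | RightEngel b} ≤ HP P := by
    rw [closure_le]
    intro b hb
    have h2 : LeftEngel b⁻¹ := Pool.Agent.helper80.EN.Asm.aRLE P b hb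
    have h3 := Pool.Agent.helper80.EN.Asm.aMAJ P hL b⁻¹ h2
    exact (HP P).inv_mem_iff.1 h3
  have h1' : (⊤ : Subgroup P) ≤ HP P := by
    have h7 : closure {b : P | RightEngel b} = ⊤ := hre
    rw [h7] at h1
    exact h1
  have h5 : LocNilp (HP P) := (Pool.Agent.helper80.EN.Asm.aHPR P).2.1
  have h6 : Group.IsNilpotent (⊤ : Subgroup P) := h5 ⊤ ((Group.fg_def).1 hfg) h1'
  exact (Group.isNilpotent_congr Subgroup.topEquiv).1 h6

end Pool.Agent.helper46.ESM
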